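import Mathlib
import Pool.Agent.Helper39.FR.COMP
import Pool.Agent.Helper89.FR.TUT
import Pool.Agent.Helper94.FR.BAR
import Pool.Agent.Helper42.FR.LOCB
import Pool.Agent.Helper30.FR.IDF
import Pool.Agent.Helper51.FR.SKF
import Pool.Agent.Helper81.FR.IDM
import Pool.Agent.Helper96.FR.CUT
import Pool.Agent.Helper26.FR.FIT
import Pool.Agent.Helper24.FR.LOCN
import Pool.Agent.Helper90.FR.GLON
import Pool.Agent.Helper55.FR.UNS
import Pool.Agent.Helper93.FR.UNB
import Pool.Agent.Helper83.FR.ZBD
import Pool.Agent.Helper32.FR.DIF
import Pool.Agent.Helper22.FR.GEX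
import Pool.Agent.Helper62.FR.PRB
import Pool.Agent.Helper75.FR.BLKS
import Pool.Agent.Helper16.FR.TCH
import Pool.Agent.Helper40.FR.CONR
import Pool.Agent.Helper33.FR.CNL
import Pool.Agent.Helper67.FR.CNT
import Pool.Agent.Helper17.FR.NUM
import Pool.Agent.Helper35.FR.SML
import Pool.Agent.Helper15.FR.SMG
import Pool.Agent.Helper58.FR.ORI
import Pool.Agent.Helper46.FR.IFX
import Pool.Agent.Helper69.FR.GIR
import Pool.Agent.Helper79.FR.PET
import Pool.Agent.Helper51.FR.ODD
import Pool.Agent.Helper55.FR.XR
import Pool.Agent.Helper55.FR.GCY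
import Pool.Agent.Helper55.FR.Main
import Pool.Agent.Helper55.FR.Final

/-!
The Fan-Raspaud conjecture for cubic expanders of large girth, in the strong form that EVERY
perfect matching `M` belongs to a family `M, N_1, ..., N_r` of perfect matchings such that no edge
lies in `M`, in `N_i` and in `N_j` for `i` different from `j`.

Idea of the proof. Let `F` be the 2-factor complementary to `M`. It suffices to colour the edges of
`M` with `r` colours so that `F` together with any colour class has a perfect matching. If
`F ∪ B` has none, take a Tutte barrier `T` all of whose components are odd; degree counting in `F`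
and in `M` separately shows that the edges of `M` between different components (none of them is in
`B`) are many compared with the numbers of edges and vertices which describe the barrier. So a random
colouring, in the form of Rosenfeld's counting argument, avoids all barriers which are local; barriers
which cover almost the whole graph exist only if the graph is nearly bipartite, and these are counted
relative to the one with the fewest bad edges: a part of the difference region which touches no
defect of the reference barrier can be undone.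
-/

set_option autoImplicit false

namespace Pool.Agent.Results.MP_79b960_co.LargeGirthExpanders

open Pool.Agent.Helper55.FR

/-- Let `0 < h ≤ 1`, `r ≥ 1` and `10 ^ 10 * r ^ 3 ≤ h ^ 3 * g`. Let `G` be a finite cubic graph with
girth at least `g` in which at least `h * |S|` edges leave every set `S` of at most half of the
vertices. Then `G` has a perfect matching, and for every perfect matching `M` there are perfect
matchings `N_1, ..., N_r` such that no edge belongs to `M`, `N_i` and `N_j` for `i ≠ j`. -/
theorem result :
    ∀ (h : ℝ) (r g : ℕ), 0 < h → h ≤ 1 → 1 ≤ r → 10 ^ 10 * (r : ℝ) ^ 3 ≤ h ^ 3 * g →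
      ∀ (V : Type) [Fintype V] [DecidableEq V] (G : SimpleGraph V) [DecidableRel G.Adj],
        G.IsRegularOfDegree 3 →
        (∀ S : Finset V, 2 * S.card ≤ Fintype.card V →
          h * S.card ≤ ((S ×ˢ Sᶜ).filter fun p => G.Adj p.1 p.2).card) →
        (g : ℕ∞) ≤ G.egirth →
        (∃ M : G.Subgraph, M.IsPerfectMatching) ∧
        ∀ M : G.Subgraph, M.IsPerfectMatching → ∃ N : Fin r → G.Subgraph,
          (∀ i, (N i).IsPerfectMatching) ∧ ∀ i j, i ≠ j → ∀ e : Sym2 V,
            ¬ (e ∈ M.edgeSet ∧ e ∈ (N i).edgeSet ∧ e ∈ (N j).edgeSet) := by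
  have hidf := Pool.Agent.Helper30.FR.idf
  have hskf := Pool.Agent.Helper51.FR.skf
  have hidm := Pool.Agent.Helper81.FR.idm
  have hcut := Pool.Agent.Helper96.FR.cut
  have hfit := Pool.Agent.Helper26.FR.fit
  have hglon : GlonStmt := Pool.Agent.Helper90.FR.glon hidf hskf hidm hcut hfit
  have hlocn : LocnStmt := Pool.Agent.Helper24.FR.locn hidf hskf hidm hcut hfit
  have hcomp : CompStmt := Pool.Agent.Helper39.FR.comp
  have htut : TutStmt := Pool.Agent.Helper89.FR.tut
  have hbar : BarStmt := Pool.Agent.Helper94.FR.bar hcomp htut
  have huns : UnsStmt := uns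
  have hunb : UnbStmt := Pool.Agent.Helper93.FR.unb huns
  have hgex : GexStmt := Pool.Agent.Helper22.FR.gex hunb hglon ref Pool.Agent.Helper32.FR.dif
  have hcnt : CntStmt := Pool.Agent.Helper67.FR.cnt Pool.Agent.Helper16.FR.tch
    Pool.Agent.Helper40.FR.con Pool.Agent.Helper33.FR.cnl
  have hsml : SmlStmt := Pool.Agent.Helper35.FR.sml hcnt xr
  have hsmg : SmgStmt := Pool.Agent.Helper15.FR.smg hcnt xr Pool.Agent.Helper83.FR.zbd
  have hmain : MainStmt := main hbar Pool.Agent.Helper42.FR.locb hlocn hglon hgex ref gcy
    Pool.Agent.Helper75.FR.blks Pool.Agent.Helper17.FR.num hsml hsmg Pool.Agent.Helper62.FR.prb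
  exact fin hmain Pool.Agent.Helper58.FR.ori Pool.Agent.Helper46.FR.ifx
    Pool.Agent.Helper69.FR.gir Pool.Agent.Helper79.FR.pet
    (Pool.Agent.Helper51.FR.odd Pool.Agent.Helper69.FR.gir)

end Pool.Agent.Results.MP_79b960_co.LargeGirthExpanders
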